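import Pool.Agent.MP_e620c0_nt.lin.Spec

/-! Project LIN: the inner product, the operators and the digits. -/

set_option autoImplicit false

namespace Pool.Agent.Emirp.Lin

open Finset Filter Real
open scoped ComplexConjugate

noncomputable section

variable {B N : ℕ}

/-! ### inner product -/

/-- the vector of Euclidean space -/
def eu (f : Cu B N → ℂ) : EuclideanSpace ℂ (Cu B N) := WithLp.toLp 2 f

theorem nr_eq (f : Cu B N → ℂ) : nr f = ‖eu f‖ / √((B : ℝ) ^ N) := by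
  rw [nr, EuclideanSpace.norm_eq, Real.sqrt_div (sum_nonneg fun _ _ => sq_nonneg _)]; rfl

theorem nr_nonneg (f : Cu B N → ℂ) : 0 ≤ nr f := sqrt_nonneg _

theorem nr_sq (f : Cu B N → ℂ) : nr f ^ 2 = (∑ x, ‖f x‖ ^ 2) / (B : ℝ) ^ N :=
  sq_sqrt (by positivity)

theorem ip_self (f : Cu B N → ℂ) : ip f f = ((nr f ^ 2 : ℝ) : ℂ) := by
  rw [nr_sq, ip]
  push_cast
  simp only [Complex.mul_conj']

theorem ip_conj (f g : Cu B N → ℂ) : conj (ip f g) = ip g f := by
  simp only [ip, map_div₀, map_sum, map_mul, map_pow, Complex.conj_conj, Complex.conj_natCast]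
  congr 1
  exact sum_congr rfl fun _ _ => mul_comm _ _

theorem norm_ip_comm (f g : Cu B N → ℂ) : ‖ip f g‖ = ‖ip g f‖ := by
  rw [← ip_conj g f, Complex.norm_conj]

theorem norm_ip_le (f g : Cu B N → ℂ) : ‖ip f g‖ ≤ nr f * nr g := by
  have h : ∑ x, f x * conj (g x) = inner ℂ (eu g) (eu f) := by
    rw [EuclideanSpace.inner_eq_star_dotProduct]; rfl
  rw [ip, norm_div, h, nr_eq, nr_eq, div_mul_div_comm, mul_self_sqrt (by positivity), norm_pow,
    Complex.norm_natCast, mul_comm]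
  exact div_le_div_of_nonneg_right (norm_inner_le_norm _ _) (by positivity)

theorem nr_add_le (f g : Cu B N → ℂ) : nr (f + g) ≤ nr f + nr g := by
  rw [nr_eq, nr_eq, nr_eq, ← add_div]
  exact div_le_div_of_nonneg_right (norm_add_le (eu f) (eu g)) (sqrt_nonneg _)

theorem nr_smul (c : ℂ) (f : Cu B N → ℂ) : nr (c • f) = ‖c‖ * nr f := by
  rw [nr_eq, nr_eq, ← mul_div_assoc, ← norm_smul]; rfl

theorem nr_zero : nr (0 : Cu B N → ℂ) = 0 := by simp [nr]

theorem nr_neg (f : Cu B N → ℂ) : nr (-f) = nr f := by simp [nr]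

theorem nr_sub_le (f g : Cu B N → ℂ) : nr (f - g) ≤ nr f + nr g := by
  rw [sub_eq_add_neg, ← nr_neg g]; exact nr_add_le _ _

theorem nr_sum_le {ι : Type*} (s : Finset ι) (f : ι → Cu B N → ℂ) :
    nr (∑ i ∈ s, f i) ≤ ∑ i ∈ s, nr (f i) :=
  le_sum_of_subadditive nr nr_zero.le nr_add_le s f

theorem nr_mono {f g : Cu B N → ℂ} (h : ∀ x, ‖f x‖ ≤ ‖g x‖) : nr f ≤ nr g :=
  sqrt_le_sqrt (div_le_div_of_nonneg_right
    (sum_le_sum fun x _ => pow_le_pow_left₀ (norm_nonneg _) (h x) 2) (by positivity))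

theorem nr_congr {f g : Cu B N → ℂ} (h : ∀ x, ‖f x‖ = ‖g x‖) : nr f = nr g :=
  le_antisymm (nr_mono fun x => (h x).le) (nr_mono fun x => (h x).ge)

theorem card_Cu : Fintype.card (Cu B N) = B ^ N := by simp

theorem nr_le_of_sup {f : Cu B N → ℂ} {c : ℝ} (hc : 0 ≤ c) (h : ∀ x, ‖f x‖ ≤ c) : nr f ≤ c := by
  refine sqrt_le_iff.2 ⟨hc, div_le_of_le_mul₀ (by positivity) (by positivity) ?_⟩
  refine (sum_le_card_nsmul _ _ (c ^ 2) fun x _ => pow_le_pow_left₀ (norm_nonneg _) (h x) 2).trans ?_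
  rw [card_univ, card_Cu, nsmul_eq_mul, mul_comm]; push_cast; rfl

theorem ip_add_left (f g h : Cu B N → ℂ) : ip (f + g) h = ip f h + ip g h := by
  simp only [ip, Pi.add_apply, add_mul, sum_add_distrib, add_div]

theorem ip_add_right (f g h : Cu B N → ℂ) : ip f (g + h) = ip f g + ip f h := by
  simp only [ip, Pi.add_apply, map_add, mul_add, sum_add_distrib, add_div]

theorem ip_sub_left (f g h : Cu B N → ℂ) : ip (f - g) h = ip f h - ip g h := by
  simp only [ip, Pi.sub_apply, sub_mul, sum_sub_distrib, sub_div]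

theorem ip_sub_right (f g h : Cu B N → ℂ) : ip f (g - h) = ip f g - ip f h := by
  simp only [ip, Pi.sub_apply, map_sub, mul_sub, sum_sub_distrib, sub_div]

theorem ip_smul_left (c : ℂ) (f g : Cu B N → ℂ) : ip (c • f) g = c * ip f g := by
  simp only [ip, Pi.smul_apply, smul_eq_mul, mul_assoc, ← mul_sum, mul_div_assoc]

theorem ip_smul_right (c : ℂ) (f g : Cu B N → ℂ) : ip f (c • g) = conj c * ip f g := by
  rw [← ip_conj, ip_smul_left, map_mul, ip_conj]

theorem ip_zero_left (g : Cu B N → ℂ) : ip 0 g = 0 := by simp [ip]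

theorem ip_zero_right (g : Cu B N → ℂ) : ip g 0 = 0 := by simp [ip]

theorem ip_sum_left {ι : Type*} (s : Finset ι) (f : ι → Cu B N → ℂ) (g : Cu B N → ℂ) :
    ip (∑ i ∈ s, f i) g = ∑ i ∈ s, ip (f i) g := by
  simp only [ip, Finset.sum_apply, sum_mul, ← sum_div]
  rw [sum_comm]

theorem ip_sum_right {ι : Type*} (s : Finset ι) (f : ι → Cu B N → ℂ) (g : Cu B N → ℂ) :
    ip g (∑ i ∈ s, f i) = ∑ i ∈ s, ip g (f i) := by
  rw [← ip_conj, ip_sum_left, map_sum]
  exact sum_congr rfl fun _ _ => ip_conj _ _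

/-! ### the operators -/

/-- `Ai` as a linear map -/
def AiL (i : Fin N) : (Cu B N → ℂ) →ₗ[ℂ] (Cu B N → ℂ) where
  toFun := Ai i
  map_add' f g := by ext x; simp only [Ai, Pi.add_apply, sum_add_distrib, add_div]
  map_smul' c f := by
    ext x; simp only [Ai, Pi.smul_apply, smul_eq_mul, ← mul_sum, RingHom.id_apply, mul_div_assoc]

theorem Aop_eq (f : Cu B N → ℂ) : Aop f = (N : ℂ)⁻¹ • ∑ i, Ai i f := by
  ext x; simp only [Aop, Pi.smul_apply, Finset.sum_apply, smul_eq_mul, div_eq_inv_mul]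

/-- `Aop` as a linear map -/
def AL : (Cu B N → ℂ) →ₗ[ℂ] (Cu B N → ℂ) := (N : ℂ)⁻¹ • ∑ i, AiL i

theorem AL_apply (f : Cu B N → ℂ) : AL f = Aop f := by
  rw [Aop_eq, AL, LinearMap.smul_apply, LinearMap.sum_apply]; rfl

theorem iter_eq (k : ℕ) (f : Cu B N → ℂ) : Aop^[k] f = (AL ^ k) f := by
  rw [Module.End.pow_apply, show (⇑AL : (Cu B N → ℂ) → _) = Aop from funext AL_apply]

theorem iter_add (k : ℕ) (f g : Cu B N → ℂ) : Aop^[k] (f + g) = Aop^[k] f + Aop^[k] g := by
  simp only [iter_eq, map_add]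

theorem iter_sub (k : ℕ) (f g : Cu B N → ℂ) : Aop^[k] (f - g) = Aop^[k] f - Aop^[k] g := by
  simp only [iter_eq, map_sub]

theorem iter_smul (k : ℕ) (c : ℂ) (f : Cu B N → ℂ) : Aop^[k] (c • f) = c • Aop^[k] f := by
  simp only [iter_eq, map_smul]

theorem iter_zero (k : ℕ) : Aop^[k] (0 : Cu B N → ℂ) = 0 := by simp only [iter_eq, map_zero]

theorem iter_sum {ι : Type*} (k : ℕ) (s : Finset ι) (f : ι → Cu B N → ℂ) :
    Aop^[k] (∑ i ∈ s, f i) = ∑ i ∈ s, Aop^[k] (f i) := by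
  simp only [iter_eq, map_sum]

theorem Aop_add (f g : Cu B N → ℂ) : Aop (f + g) = Aop f + Aop g := iter_add 1 f g

theorem Aop_sub (f g : Cu B N → ℂ) : Aop (f - g) = Aop f - Aop g := iter_sub 1 f g

/-- the pairs of neighbours in direction `i` -/
theorem sum_swap (i : Fin N) (F : Cu B N → Cu B N → ℂ) :
    ∑ x : Cu B N, ∑ d ∈ univ.erase (x i), F x (Function.update x i d) =
      ∑ x : Cu B N, ∑ d ∈ univ.erase (x i), F (Function.update x i d) x := by
  rw [sum_sigma', sum_sigma']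
  refine sum_nbij' (fun p => ⟨Function.update p.1 i p.2, p.1 i⟩)
    (fun p => ⟨Function.update p.1 i p.2, p.1 i⟩) ?_ ?_ ?_ ?_ ?_
  · rintro ⟨x, d⟩ h
    simp only [mem_sigma, mem_univ, mem_erase, true_and, and_true, Function.update_self] at h ⊢
    exact h.symm
  · rintro ⟨x, d⟩ h
    simp only [mem_sigma, mem_univ, mem_erase, true_and, and_true, Function.update_self] at h ⊢
    exact h.symm
  · rintro ⟨x, d⟩ _; simp
  · rintro ⟨x, d⟩ _; simp
  · rintro ⟨x, d⟩ _; simp

theorem ip_Ai (i : Fin N) (f g : Cu B N → ℂ) : ip (Ai i f) g = ip f (Ai i g) := by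
  simp only [ip, Ai, map_div₀, map_sum, map_sub, map_one, Complex.conj_natCast, div_mul_eq_mul_div,
    ← mul_div_assoc, ← sum_div, sum_mul, mul_sum]
  rw [sum_swap i fun x y => f y * conj (g x)]

theorem norm_Ai_sq (hB : 2 ≤ B) (i : Fin N) (f : Cu B N → ℂ) (x : Cu B N) :
    ‖Ai i f x‖ ^ 2 ≤
      (∑ d ∈ univ.erase (x i), ‖f (Function.update x i d)‖ ^ 2) / ((B : ℝ) - 1) := by
  have h1 : (2 : ℝ) ≤ B := by exact_mod_cast hB
  have h2 : ‖(B : ℂ) - 1‖ = (B : ℝ) - 1 := by
    rw [show (B : ℂ) - 1 = (((B : ℝ) - 1 : ℝ) : ℂ) by push_cast; rfl, Complex.norm_real,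
      Real.norm_of_nonneg (by linarith)]
  have h3 : (#(univ.erase (x i)) : ℝ) = B - 1 := by
    rw [card_erase_of_mem (mem_univ _), card_univ, Fintype.card_fin, Nat.cast_pred (by omega)]
  rw [Ai, norm_div, h2, div_pow, div_le_div_iff₀ (by nlinarith) (by linarith)]
  have h4 := (pow_le_pow_left₀ (norm_nonneg _) (norm_sum_le (univ.erase (x i))
    fun d => f (Function.update x i d)) 2).trans sq_sum_le_card_mul_sum_sq
  rw [h3] at h4
  calc _ ≤ _ := mul_le_mul_of_nonneg_right h4 (by linarith)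
    _ = _ := by ring

theorem nr_Ai_le (hB : 2 ≤ B) (i : Fin N) (f : Cu B N → ℂ) : nr (Ai i f) ≤ nr f := by
  have h1 : (2 : ℝ) ≤ B := by exact_mod_cast hB
  refine sqrt_le_sqrt (div_le_div_of_nonneg_right ?_ (by positivity))
  refine (sum_le_sum fun x _ => norm_Ai_sq hB i f x).trans (le_of_eq ?_)
  have h := sum_swap i fun (_ y : Cu B N) => ((‖f y‖ ^ 2 : ℝ) : ℂ)
  have h' : ∑ x : Cu B N, ∑ d ∈ univ.erase (x i), ‖f (Function.update x i d)‖ ^ 2 =
      ∑ x : Cu B N, ∑ _d ∈ univ.erase (x i), ‖f x‖ ^ 2 := by exact_mod_cast h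
  rw [← sum_div, h', div_eq_iff (by linarith), sum_mul]
  refine sum_congr rfl fun x _ => ?_
  rw [sum_const, card_erase_of_mem (mem_univ _), card_univ, Fintype.card_fin, nsmul_eq_mul,
    Nat.cast_pred (by omega), mul_comm]

theorem ip_Aop (f g : Cu B N → ℂ) : ip (Aop f) g = ip f (Aop g) := by
  rw [Aop_eq, Aop_eq, ip_smul_left, ip_smul_right, ip_sum_left, ip_sum_right, map_inv₀,
    Complex.conj_natCast]
  simp only [ip_Ai]

theorem nr_Aop_le (hB : 2 ≤ B) (f : Cu B N → ℂ) : nr (Aop f) ≤ nr f := by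
  rw [Aop_eq, nr_smul, norm_inv, Complex.norm_natCast]
  have h := (nr_sum_le univ fun i => Ai i f).trans (sum_le_sum fun i _ => nr_Ai_le hB i f)
  rw [sum_const, card_univ, Fintype.card_fin, nsmul_eq_mul] at h
  refine (mul_le_mul_of_nonneg_left h (by positivity)).trans ?_
  rw [← mul_assoc]
  exact mul_le_of_le_one_left (nr_nonneg f) inv_mul_le_one

theorem ip_iter (k : ℕ) (f g : Cu B N → ℂ) : ip (Aop^[k] f) g = ip f (Aop^[k] g) := by
  induction k generalizing g with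
  | zero => rfl
  | succ k ih => rw [Function.iterate_succ_apply', ip_Aop, ih, Function.iterate_succ_apply]

theorem nr_iter_le (hB : 2 ≤ B) (k : ℕ) (f : Cu B N → ℂ) : nr (Aop^[k] f) ≤ nr f := by
  induction k with
  | zero => rfl
  | succ k ih => rw [Function.iterate_succ_apply']; exact (nr_Aop_le hB _).trans ih

section sg

variable {t : Fin B → Fin B} (ht : Function.Involutive t)
include ht

theorem sx_sx (x : Cu B N) : sx t (sx t x) = x := by
  ext i; simp only [sx, Fin.rev_rev, ht _]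

theorem sum_sx {M : Type*} [AddCommMonoid M] (F : Cu B N → M) : ∑ x, F (sx t x) = ∑ x, F x :=
  Equiv.sum_comp (Function.Involutive.toPerm (sx t) (sx_sx ht)) F

theorem ip_sg (f g : Cu B N → ℂ) : ip (sg t f) g = ip f (sg t g) := by
  unfold ip sg
  rw [← sum_sx ht]
  simp only [sx_sx ht]

theorem nr_sg (f : Cu B N → ℂ) : nr (sg t f) = nr f := by
  unfold nr sg
  rw [sum_sx ht fun x => ‖f x‖ ^ 2]

omit ht in
theorem sx_update (x : Cu B N) (i : Fin N) (d : Fin B) :
    sx t (Function.update x i d) = Function.update (sx t x) i.rev (t d) := by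
  ext j
  by_cases h : j = i.rev
  · subst h; simp [sx]
  · have : j.rev ≠ i := fun e => h (by rw [← e, Fin.rev_rev])
    simp [sx, Function.update_of_ne h, Function.update_of_ne this]

theorem Ai_sg (i : Fin N) (f : Cu B N → ℂ) : Ai i (sg t f) = sg t (Ai i.rev f) := by
  ext x
  simp only [Ai, sg, sx_update]
  congr 1
  refine sum_nbij' t t (fun d h => ?_) (fun d h => ?_) (fun d _ => ht d) (fun d _ => ht d)
    fun _ _ => rfl
  · simp only [mem_erase, mem_univ, and_true, sx, Fin.rev_rev] at h ⊢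
    exact fun e => h (ht.injective e)
  · simp only [mem_erase, mem_univ, and_true, sx, Fin.rev_rev] at h ⊢
    exact fun e => h (by rw [← e, ht])

theorem Aop_sg (f : Cu B N → ℂ) : Aop (sg t f) = sg t (Aop f) := by
  ext x
  simp only [Aop, Ai_sg ht, sg]
  congr 1
  exact Equiv.sum_comp Fin.revPerm fun i => Ai i f (sx t x)

theorem iter_sg (k : ℕ) (f : Cu B N → ℂ) : Aop^[k] (sg t f) = sg t (Aop^[k] f) := by
  induction k with
  | zero => rfl
  | succ k ih => rw [Function.iterate_succ_apply', ih, Aop_sg ht, Function.iterate_succ_apply']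

theorem ip_iter_sg (k : ℕ) (f g : Cu B N → ℂ) :
    ip (Aop^[k] f) (sg t (Aop^[k] g)) = ip (Aop^[2 * k] f) (sg t g) := by
  rw [← iter_sg ht, ← ip_iter k (Aop^[k] f), ← Function.iterate_add_apply, two_mul]

end sg

theorem sg_add (t : Fin B → Fin B) (f g : Cu B N → ℂ) : sg t (f + g) = sg t f + sg t g := rfl

theorem sg_sub (t : Fin B → Fin B) (f g : Cu B N → ℂ) : sg t (f - g) = sg t f - sg t g := rfl

theorem sg_sum {ι : Type*} (t : Fin B → Fin B) (s : Finset ι) (f : ι → Cu B N → ℂ) :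
    sg t (∑ i ∈ s, f i) = ∑ i ∈ s, sg t (f i) := by
  ext x; simp only [sg, Finset.sum_apply]

theorem rb_inv (r : ℕ) : Function.Involutive (rb r) := fun d => Fin.ext (rv_rv d.2)

/-! ### digits -/

theorem val_eq (x : Cu B N) : val x = finFunctionFinEquiv x := (finFunctionFinEquiv_apply x).symm

theorem val_lt (x : Cu B N) : val x < B ^ N := by rw [val_eq]; exact Fin.is_lt _

theorem val_inj : Function.Injective (val : Cu B N → ℕ) := fun x y h =>
  finFunctionFinEquiv.injective (Fin.ext (by rw [← val_eq, ← val_eq, h]))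

theorem sum_val {M : Type*} [AddCommMonoid M] (φ : ℕ → M) :
    ∑ x : Cu B N, φ (val x) = ∑ n ∈ range (B ^ N), φ n := by
  rw [← Fin.sum_univ_eq_sum_range, ← Equiv.sum_comp finFunctionFinEquiv]
  simp only [val_eq]

theorem val_digit (x : Cu B N) (i : Fin N) : val x / B ^ (i : ℕ) % B = x i := by
  have h := finFunctionFinEquiv_symm_apply_val (finFunctionFinEquiv x) i
  rw [Equiv.symm_apply_apply] at h
  rw [val_eq, h]

theorem val_update (x : Cu B N) (i : Fin N) (d : Fin B) :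
    val (Function.update x i d) + x i * B ^ (i : ℕ) = val x + d * B ^ (i : ℕ) := by
  unfold val
  rw [← add_sum_erase _ _ (mem_univ i), ← add_sum_erase _ (fun j => (x j : ℕ) * B ^ (j : ℕ))
    (mem_univ i), Function.update_self,
    sum_congr rfl fun j hj => by rw [Function.update_of_ne (mem_erase.1 hj).1]]
  ring

theorem XX_eq (r N : ℕ) : XX r N = 10 ^ (r * N) := (pow_mul _ _ _).symm

/-- decimal digits of a number given by blocks -/
theorem dg_val {r : ℕ} (x : Cu (10 ^ r) N) (i : Fin N) {j : ℕ} (hj : j < r) :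
    dg (r * i + j) (val x) = dg j (x i) := by
  rw [dg_div, ← val_digit, dg_mod hj, pow_mul]

theorem val_sx {r : ℕ} (x : Cu (10 ^ r) N) : val (sx (rb r) x) = rv (r * N) (val x) := by
  have h1 : val (sx (rb r) x) < 10 ^ (r * N) := by rw [pow_mul]; exact val_lt _
  rw [← Nat.mod_eq_of_lt h1, ← sum_dg, rv_eq]
  refine sum_congr rfl fun n hn => ?_
  have hn' := mem_range.1 hn
  have hr : 0 < r := Nat.pos_of_ne_zero fun h => by simp [h] at hn'
  have hi : n / r < N := Nat.div_lt_of_lt_mul hn'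
  have hj := Nat.mod_lt n hr
  have e1 : n = r * (⟨n / r, hi⟩ : Fin N) + n % r := (Nat.div_add_mod n r).symm
  have e2 : r * N - 1 - n = r * ((⟨n / r, hi⟩ : Fin N).rev : ℕ) + (r - 1 - n % r) := by
    rw [Fin.val_rev]
    have h2 : r * N = r * (N - (n / r + 1)) + r * (n / r) + r := by
      rw [← mul_add, ← mul_add_one]; congr 1; omega
    have := Nat.div_add_mod n r
    dsimp only
    omega
  congr 1
  rw [e2, dg_val x _ (by omega)]
  conv_lhs => rw [e1, dg_val _ _ hj]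
  exact dg_rv hj _

/-- the blocks below `m` -/
def lowS (N m : ℕ) : Finset (Fin N) := univ.filter fun i => (i : ℕ) < m

/-- the blocks from `m` on -/
def highS (N m : ℕ) : Finset (Fin N) := univ.filter fun i => ¬ (i : ℕ) < m

theorem val_split (m : ℕ) (x : Cu B N) : val x = ∑ i ∈ lowS N m, (x i : ℕ) * B ^ (i : ℕ) +
    B ^ m * ∑ i ∈ highS N m, (x i : ℕ) * B ^ ((i : ℕ) - m) := by
  rw [val, ← sum_filter_add_sum_filter_not univ (fun i : Fin N => (i : ℕ) < m), mul_sum]
  congr 1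
  refine sum_congr rfl fun i hi => ?_
  rw [mul_left_comm, ← pow_add, Nat.add_sub_cancel' (not_lt.1 (mem_filter.1 hi).2)]

theorem low_lt (h0 : 0 < B) (m : ℕ) (x : Cu B N) :
    ∑ i ∈ lowS N m, (x i : ℕ) * B ^ (i : ℕ) < B ^ m := by
  induction m with
  | zero => simp [lowS]
  | succ m ih =>
    have h1 : ∑ i ∈ lowS N (m + 1), (x i : ℕ) * B ^ (i : ℕ) ≤
        ∑ i ∈ lowS N m, (x i : ℕ) * B ^ (i : ℕ) + (B - 1) * B ^ m := by
      rw [← sum_filter_add_sum_filter_not _ (fun i : Fin N => (i : ℕ) < m)]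
      refine add_le_add (sum_le_sum_of_subset fun i hi => ?_) ?_
      · simp only [lowS, mem_filter, mem_univ, true_and] at hi ⊢; exact hi.2
      · refine (sum_le_card_nsmul _ _ ((B - 1) * B ^ m) fun i hi => ?_).trans ?_
        · simp only [lowS, mem_filter, mem_univ, true_and] at hi
          rw [show (i : ℕ) = m by omega]
          exact Nat.mul_le_mul_right _ (Nat.le_sub_one_of_lt (x i).2)
        · rw [smul_eq_mul]
          refine mul_le_of_le_one_left (Nat.zero_le _) (card_le_one.2 fun a ha b hb => ?_)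
          simp only [lowS, mem_filter, mem_univ, true_and] at ha hb
          exact Fin.ext (by omega)
    have h2 : B ^ m + (B - 1) * B ^ m = B ^ (m + 1) := by
      rw [pow_succ', ← one_add_mul]; congr 1; omega
    omega

theorem val_mod (h0 : 0 < B) (m : ℕ) (x : Cu B N) :
    val x % B ^ m = ∑ i ∈ lowS N m, (x i : ℕ) * B ^ (i : ℕ) := by
  rw [val_split m x, Nat.add_mul_mod_self_left, Nat.mod_eq_of_lt (low_lt h0 m x)]

theorem val_div (h0 : 0 < B) (m : ℕ) (x : Cu B N) :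
    val x / B ^ m = ∑ i ∈ highS N m, (x i : ℕ) * B ^ ((i : ℕ) - m) := by
  rw [val_split m x, Nat.add_mul_div_left _ _ (pow_pos h0 _), Nat.div_eq_of_lt (low_lt h0 m x),
    zero_add]

theorem endD_cellf (h0 : 0 < B) {J : ℕ} (φ : ℕ → ℕ → ℂ) :
    EndD J (cellf (B := B) (N := N) J φ) := by
  intro x y h
  unfold cellf
  rw [val_mod h0, val_mod h0, val_div h0, val_div h0]
  congr 1
  · exact sum_congr rfl fun i hi => by rw [h i (Or.inl (mem_filter.1 hi).2)]
  · exact sum_congr rfl fun i hi => by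
      rw [h i (Or.inr (by have := (mem_filter.1 hi).2; omega))]

/-! ### trivial bounds -/

theorem Fn_nonneg (L n : ℕ) : 0 ≤ Fn L n := by
  unfold Fn; split_ifs; exacts [log_natCast_nonneg n, le_rfl]

theorem Fn_le {L n : ℕ} (hn : n < 10 ^ L) : Fn L n ≤ 3 * L := by
  unfold Fn
  split_ifs with h
  · refine le_trans (log_le_log (by exact_mod_cast h.1.pos) ?_) (Core2.log_ten_pow L)
    exact_mod_cast hn.le
  · positivity

theorem mn_nonneg (L n : ℕ) : 0 ≤ mn L n := by unfold mn; split_ifs <;> norm_num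

theorem mn_le (L n : ℕ) : mn L n ≤ 5 / 2 := by unfold mn; split_ifs <;> norm_num

theorem abs_Hn_le {L n : ℕ} (hL : 1 ≤ L) (hn : n < 10 ^ L) : |Hn L n| ≤ 3 * L := by
  have h1 : (1 : ℝ) ≤ L := by exact_mod_cast hL
  have := Fn_nonneg L n; have := Fn_le hn; have := mn_nonneg L n; have := mn_le L n
  rw [Hn, abs_le]; constructor <;> linarith

theorem Hc_eq (r N : ℕ) : Hc r N = Fc r N - mc r N := by
  ext x; simp [Hc, Fc, mc, Hn]

theorem norm_Hc_le {r N : ℕ} (h : 1 ≤ r * N) (x : Cu (10 ^ r) N) :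
    ‖Hc r N x‖ ≤ 3 * ((r * N : ℕ) : ℝ) := by
  rw [Hc, Complex.norm_real, Real.norm_eq_abs]
  exact abs_Hn_le h (by rw [pow_mul]; exact val_lt x)

theorem nr_Hc_le {r N : ℕ} (h : 1 ≤ r * N) : nr (Hc r N) ≤ 3 * ((r * N : ℕ) : ℝ) :=
  nr_le_of_sup (by positivity) (norm_Hc_le h)

theorem norm_ea (a : ℕ) (x : Cu B N) : ‖ea a x‖ = 1 := norm_e _

theorem norm_co_le {r N : ℕ} (h : 1 ≤ r * N) (a : ℕ) :
    ‖co (Hc r N) a‖ ≤ 3 * ((r * N : ℕ) : ℝ) :=
  (norm_ip_le _ _).trans ((mul_le_of_le_one_right (nr_nonneg _)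
    (nr_le_of_sup zero_le_one fun x => (norm_ea a x).le)).trans (nr_Hc_le h))

theorem co_Hc (r N a : ℕ) :
    co (Hc r N) a = SH (r * N) (-((a : ℝ) / 10 ^ (r * N))) / 10 ^ (r * N) := by
  unfold co ip SH Hc ea
  rw [sum_val fun n => (Hn (r * N) n : ℂ) * conj (e ((a : ℝ) * n / ((10 ^ r : ℕ) : ℝ) ^ N)),
    ← pow_mul]
  push_cast
  rw [← pow_mul, ← pow_mul]
  congr 1
  refine sum_congr rfl fun n _ => ?_
  rw [conj_e]; congr 2; ring

theorem rho_spec {X Q a : ℕ} (h : Maj X Q a) :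
    (rho X Q a).den ≤ Q ∧ |(a : ℝ) - X * rho X Q a| ≤ Q / (rho X Q a).den := by
  rw [rho, dif_pos h]; exact h.choose_spec

end

end Pool.Agent.Emirp.Lin
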