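import Pool.Agent.MP_e620c0_nt.Ana

/-! Project LIN (primes whose reversal is a prime up to boundedly many digits): definitions. -/

set_option autoImplicit false

namespace Pool.Agent.Emirp.Lin

open Finset Filter Real
open scoped ComplexConjugate

noncomputable section

/-! ### the cube of blocks of digits -/

abbrev Cu (B N : ℕ) := Fin N → Fin B

variable {B N : ℕ}

/-- the number with the given blocks -/
def val (x : Cu B N) : ℕ := ∑ i, (x i : ℕ) * B ^ (i : ℕ)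

def ip (f g : Cu B N → ℂ) : ℂ := (∑ x, f x * conj (g x)) / (B : ℂ) ^ N

def nr (f : Cu B N → ℂ) : ℝ := √((∑ x, ‖f x‖ ^ 2) / (B : ℝ) ^ N)

/-- change block `i` to another value -/
def Ai (i : Fin N) (f : Cu B N → ℂ) : Cu B N → ℂ := fun x =>
  (∑ d ∈ univ.erase (x i), f (Function.update x i d)) / ((B : ℂ) - 1)

/-- change one block -/
def Aop (f : Cu B N → ℂ) : Cu B N → ℂ := fun x => (∑ i, Ai i f x) / (N : ℂ)

/-- reverse the order of the blocks and apply `t` to each -/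
def sx (t : Fin B → Fin B) (x : Cu B N) : Cu B N := fun i => t (x i.rev)

def sg (t : Fin B → Fin B) (f : Cu B N → ℂ) : Cu B N → ℂ := fun x => f (sx t x)

/-- Walsh character -/
def wl (k x : Cu B N) : ℂ := e ((∑ i, ((k i : ℕ) : ℝ) * ((x i : ℕ) : ℝ)) / B)

def lev (k : Cu B N) : ℕ := #{i | (k i : ℕ) ≠ 0}

def Lo (s : ℕ) (f : Cu B N → ℂ) : ℝ := √(∑ k with lev k ≤ s, ‖ip f (wl k)‖ ^ 2)

def Hi (s : ℕ) (f : Cu B N → ℂ) : ℝ := √(∑ k with s < lev k, ‖ip f (wl k)‖ ^ 2)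

/-- mean over one block -/
def m1 (g : Fin B → ℂ) : ℂ := (∑ d, g d) / (B : ℂ)

/-- depends only on the first and the last `J` blocks -/
def EndD (J : ℕ) (Φ : Cu B N → ℂ) : Prop :=
  ∀ x y : Cu B N, (∀ i : Fin N, ((i : ℕ) < J ∨ N ≤ i + J) → x i = y i) → Φ x = Φ y

def mid (N J : ℕ) : Finset (Fin N) := {i | J ≤ (i : ℕ) ∧ i + J < N}

/-- a function of the ends times a product over the middle -/
def sp (J : ℕ) (Φ : Cu B N → ℂ) (g : Fin N → Fin B → ℂ) : Cu B N → ℂ := fun x =>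
  Φ x * ∏ i ∈ mid N J, g i (x i)

/-- additive character -/
def ea (a : ℕ) (x : Cu B N) : ℂ := e ((a : ℝ) * val x / (B : ℝ) ^ N)

def co (f : Cu B N → ℂ) (a : ℕ) : ℂ := ip f (ea a)

def pj (S : Finset ℕ) (f : Cu B N → ℂ) : Cu B N → ℂ := ∑ a ∈ S, co f a • ea a

def PhB (B : ℕ) (t : ℝ) : ℝ := ‖∑ d ∈ range B, e (d * t)‖ / B

/-- the phase of `ea a` at block `i` -/
def tq (B N a i : ℕ) : ℝ := (B : ℝ) ^ i * a / (B : ℝ) ^ N

/-- number of active blocks -/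
def act (B N a : ℕ) : ℕ := #{i ∈ range N | 1 / (2 * (B : ℝ)) ≤ nn (tq B N a i)}

/-- a function of the cell -/
def cellf (J : ℕ) (φ : ℕ → ℕ → ℂ) (x : Cu B N) : ℂ := φ (val x % B ^ J) (val x / B ^ (N - J))

def gth (J : ℕ) (θ : ℚ) (i : Fin N) (d : Fin B) : ℂ :=
  e ((θ : ℝ) * (B : ℝ) ^ ((i : ℕ) - J) * (d : ℕ))

/-! ### the arithmetic functions -/

/-- the leading digit is 1, 3, 7 or 9 -/
def Tp (L n : ℕ) : Prop := n / 10 ^ (L - 1) ∈ ({1, 3, 7, 9} : Finset ℕ)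

instance (L n : ℕ) : Decidable (Tp L n) := by unfold Tp; infer_instance

def Fn (L n : ℕ) : ℝ := if n.Prime ∧ Tp L n then log n else 0

def mn (L n : ℕ) : ℝ := if n.Coprime 10 ∧ Tp L n then 5 / 2 else 0

def Hn (L n : ℕ) : ℝ := Fn L n - mn L n

def Fc (r N : ℕ) : Cu (10 ^ r) N → ℂ := fun x => (Fn (r * N) (val x) : ℝ)

def mc (r N : ℕ) : Cu (10 ^ r) N → ℂ := fun x => (mn (r * N) (val x) : ℝ)

def Hc (r N : ℕ) : Cu (10 ^ r) N → ℂ := fun x => (Hn (r * N) (val x) : ℝ)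

/-- reversal of the digits inside one block -/
def rb (r : ℕ) (d : Fin (10 ^ r)) : Fin (10 ^ r) := ⟨rv r d, rv_lt r d⟩

/-- the exponential sum of `Hn` -/
def SH (L : ℕ) (α : ℝ) : ℂ := ∑ n ∈ range (10 ^ L), (Hn L n : ℂ) * e (α * n)

/-- mean of `Hn` over a cell -/
def cm (L J u v : ℕ) : ℝ :=
  (∑ n ∈ range (10 ^ L) with n % 10 ^ J = u ∧ n / 10 ^ (L - J) = v, Hn L n) / 10 ^ (L - 2 * J)

/-- the variance over the cells -/
def var (L J : ℕ) : ℝ :=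
  (∑ u ∈ range (10 ^ J), ∑ v ∈ range (10 ^ J), cm L J u v ^ 2) / 10 ^ (2 * J)

def sing (h : ℕ) : ℝ := ∏ p ∈ h.primeFactors, (1 - 1 / (p : ℝ))⁻¹ ^ 2

/-! ### arcs -/

def Maj (X Q a : ℕ) : Prop := ∃ ρ : ℚ, ρ.den ≤ Q ∧ |(a : ℝ) - X * ρ| ≤ Q / ρ.den

open Classical in
def rho (X Q a : ℕ) : ℚ := if h : Maj X Q a then h.choose else 0

def XX (r N : ℕ) : ℕ := (10 ^ r) ^ N

def QQ (r D N : ℕ) : ℕ := (10 ^ r) ^ (N / D)

def JJ (D N : ℕ) : ℕ := 5 * (N / D)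

def s0 (D N : ℕ) : ℕ := N / (8 * D) + 1

def w0 (N : ℕ) : ℕ := Nat.sqrt (Nat.sqrt N)

def th (r D N a : ℕ) : ℚ :=
  Int.fract ((((10 ^ r) ^ JJ D N : ℕ) : ℚ) * rho (XX r N) (QQ r D N) a)

open Classical in
/-- minor -/
def SM (r D N : ℕ) : Finset ℕ := {a ∈ range (XX r N) | ¬ Maj (XX r N) (QQ r D N) a}

open Classical in
/-- major, many active blocks -/
def SN (r D N : ℕ) : Finset ℕ :=
  {a ∈ range (XX r N) | Maj (XX r N) (QQ r D N) a ∧ N < 20 * act (10 ^ r) N a}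

open Classical in
/-- major, few active blocks, large denominator -/
def SL (r D N : ℕ) : Finset ℕ :=
  {a ∈ range (XX r N) | Maj (XX r N) (QQ r D N) a ∧ 20 * act (10 ^ r) N a ≤ N ∧
    (10 ^ r) ^ w0 N < (th r D N a).den}

open Classical in
/-- major, few active blocks, small denominator -/
def SG (r D N : ℕ) : Finset ℕ :=
  {a ∈ range (XX r N) | Maj (XX r N) (QQ r D N) a ∧ 20 * act (10 ^ r) N a ≤ N ∧
    (th r D N a).den ≤ (10 ^ r) ^ w0 N}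

def SGt (r D N : ℕ) (θ : ℚ) : Finset ℕ := {a ∈ SG r D N | th r D N a = θ}

/-- the conditions on the parameters -/
def Par (r D : ℕ) : Prop := 2000 ≤ D ∧ 3 ≤ r ∧ (5 + log ((10 : ℝ) ^ r)) ^ (8 * D) ≤ 10 ^ r

/-! ### the variance -/

/-- normalized density of the primes in a cell -/
def rhoC (L J u v : ℕ) : ℝ := 2 / 5 * 10 ^ J / 10 ^ (L - J) *
  ∑ n ∈ range (10 ^ L) with n.Prime ∧ n % 10 ^ J = u ∧ n / 10 ^ (L - J) = v, log n

def P1 (j : ℕ) : Finset ℕ :=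
  {p ∈ Ico (2 ^ j) (2 ^ (j + 1)) | p.Prime ∧ (p : ℝ) < 2 ^ j * 2 ^ (1 / 2000 : ℝ)}

def P2 (L j : ℕ) : Finset ℕ :=
  {p ∈ range (10 ^ L) | p.Prime ∧ 10 ^ (L - 1) ≤ 2 ^ j * p ∧ 2 ^ j * p < 2 * 10 ^ (L - 1)}

/-- the bilinear sum -/
def bil (L J j : ℕ) : ℝ :=
  ∑ p₁ ∈ P1 j, ∑ p₂ ∈ P2 L j with p₁ * p₂ < 2 * 10 ^ (L - 1),
    log p₁ / p₁ * (log p₂ / p₂) * rhoC L J (p₁ * p₂ % 10 ^ J) (p₁ * p₂ / 10 ^ (L - J))

/-- number of products in a cell -/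
def nE (L J Z W u v : ℕ) : ℕ := ∑ j ∈ Ico (Z - W) Z,
  #{q ∈ P1 j ×ˢ P2 L j | q.1 * q.2 % 10 ^ J = u ∧ q.1 * q.2 / 10 ^ (L - J) = v}

/-- sum of `1 / n` over the `n ≤ z` composed of primes of `P` -/
def Hm (P : Finset ℕ) (z : ℕ) : ℝ := ∑ n ∈ Icc 1 z with n.primeFactors ⊆ P, 1 / (n : ℝ)

/-- weighted primes of a window in a class modulo 40 -/
def win (lam y : ℝ) (a : ℕ) : ℝ :=
  ∑ p ∈ (range ⌈lam * y⌉₊).filter (fun p : ℕ => p.Prime ∧ y ≤ p ∧ p % 40 = a), log p / p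

/-- the normalized indicator of the short arc -/
def iot {V : Type} {M : ℕ} (M₁ : ℕ) (g : V × ZMod M) : ℝ := if g.2.val < M₁ then 2000 else 0

abbrev UU' (J : ℕ) := Additive (ZMod (10 ^ J))ˣ

abbrev GG' (J : ℕ) := UU' J × ZMod (10 ^ (2 * J))

instance (J : ℕ) : NeZero (10 ^ J) := ⟨by positivity⟩

def tt (M : ℕ) (y : ℝ) (n : ℕ) : ℕ := ⌊M * logb 2 (n / y)⌋₊

def cl (J n : ℕ) : UU' J :=
  if h : n.Coprime (10 ^ J) then Additive.ofMul (ZMod.unitOfCoprime n h) else 0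

/-- weighted primes of `S` in a fine cell -/
def Wt (J : ℕ) (S : Finset ℕ) (y : ℝ) (g : GG' J) : ℝ :=
  ∑ p ∈ S with cl J p = g.1 ∧ (tt (10 ^ (2 * J)) y p : ZMod (10 ^ (2 * J))) = g.2, log p / p

def W1 (J j : ℕ) : GG' J → ℝ := Wt J (P1 j) (2 ^ j)

def W2 (L J j : ℕ) : GG' J → ℝ := Wt J (P2 L j) (10 ^ (L - 1) / 2 ^ j)

/-- the index of the coarse interval at the point `t` of the fine scale -/
def vv (L J : ℕ) (t : ℝ) : ℕ :=
  ⌊(10 : ℝ) ^ (L - 1) * 2 ^ (t / 10 ^ (2 * J)) / 10 ^ (L - J)⌋₊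

/-- the density on the fine cells -/
def rt (L J : ℕ) (g : GG' J) : ℝ :=
  if 10 ^ (2 * J) / 2000 + 1 ≤ g.2.val ∧ g.2.val + 2 ≤ 10 ^ (2 * J) ∧
      vv L J ((g.2.val : ℝ) - 1) = vv L J ((g.2.val : ℝ) + 2) then
    rhoC L J ((Additive.toMul g.1 : (ZMod (10 ^ J))ˣ) : ZMod (10 ^ J)).val
      (vv L J ((g.2.val : ℝ) - 1))
  else 0

def r1 (J j : ℕ) (g : GG' J) : ℝ := W1 J j g * Fintype.card (GG' J) * 2000 / log 2

def r2 (L J j : ℕ) (g : GG' J) : ℝ := W2 L J j g * Fintype.card (GG' J) / log 2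

/-- admissible parameters -/
def Adm (D₀ L J j : ℕ) : Prop :=
  L ^ 2 ≤ 10 ^ J ∧ D₀ * J ≤ L ∧ 10 ^ (2 * L) ≤ 2 ^ (5 * j) ∧ 2 ^ (2 * j) ≤ 10 ^ L

/-- primes whose reversal is within `K` digits of another prime -/
def Good (L K p : ℕ) : Prop :=
  p.Prime ∧ ∃ q ∈ Ico (10 ^ (L - 1)) (10 ^ L), q.Prime ∧ q ≠ p ∧
    #{i ∈ range L | q / 10 ^ i % 10 ≠ Naccb31f3.reverse10 p / 10 ^ i % 10} ≤ K

end

end Pool.Agent.Emirp.Lin
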