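import Pool.Agent.MP_e620c0_nt.lin.Defs

/-! Project LIN: the statements of the rows. -/

set_option autoImplicit false

namespace Pool.Agent.Emirp.Lin

open Finset Filter Real Topology
open scoped ComplexConjugate ArithmeticFunction.vonMangoldt

/-! ### the cube -/

def WalAS : Prop := ∀ B N : ℕ, 3 ≤ B → 1 ≤ N →
  (∀ (f : Cu B N → ℂ) (s k : ℕ) (c : ℝ), 0 ≤ c → c ≤ 1 / 2 → c * N ≤ s →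
    nr (Aop^[k + 1] f) ≤ Lo s f + (1 - c) ^ k * nr (Aop f)) ∧
  (∀ (f g : Cu B N → ℂ) (s : ℕ), 4 * s ≤ N →
    ‖ip f g‖ ≤ 2 * nr (Aop f) * nr g + nr f * Hi s g)

def WalBS : Prop := ∀ (B N s : ℕ), 1 ≤ B →
  (∀ f : Cu B N → ℂ, Lo s f ≤ nr f) ∧
  (∀ f g : Cu B N → ℂ, Lo s (f + g) ≤ Lo s f + Lo s g) ∧
  (∀ (f : Cu B N → ℂ) (S : Finset ℕ), Lo s (pj S f) ≤ ∑ a ∈ S, ‖co f a‖ * Lo s (ea (B := B) (N := N) a)) ∧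
  (∀ (f : Cu B N → ℂ) (S : Finset ℕ), Hi s (pj S f) ≤ ∑ a ∈ S, ‖co f a‖ * Hi s (ea (B := B) (N := N) a))

def EaS : Prop := ∀ (B N s a : ℕ), 1 ≤ B →
  (∀ l : ℝ, 0 < l → l ≤ 1 → Lo s (ea (B := B) (N := N) a) ^ 2 ≤
    l⁻¹ ^ s * ∏ i ∈ range N, (l + (1 - l) * PhB B (tq B N a i) ^ 2)) ∧
  (∀ l : ℝ, 1 ≤ l → Hi s (ea (B := B) (N := N) a) ^ 2 ≤
    l⁻¹ ^ s * ∏ i ∈ range N, (1 + l * (1 - PhB B (tq B N a i) ^ 2)))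

def SemiS : Prop := ∀ (B N J K : ℕ), 2 ≤ B → 1 ≤ N →
  ∀ (Φ Ψ : Cu B N → ℂ) (g h : Fin N → Fin B → ℂ) (T : Finset (Fin N)) (β : ℝ),
  EndD J Φ → EndD J Ψ → (∀ i d, ‖g i d‖ ≤ 1) → (∀ i d, ‖h i d‖ ≤ 1) → T ⊆ mid N J →
  0 ≤ β → β ≤ 1 → (∀ i ∈ T, ‖m1 fun d => g i d * conj (h i d)‖ ≤ β) →
  ‖ip (Aop^[K] (sp J Φ g)) (sp J Ψ h)‖ ≤ nr Φ * nr Ψ * β ^ (#T - K)

def PjS : Prop := ∀ (B N : ℕ), 1 ≤ B → ∀ f : Cu B N → ℂ, pj (range (B ^ N)) f = f ∧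
  ∀ S ⊆ range (B ^ N), nr (pj S f) ^ 2 = ∑ a ∈ S, ‖co f a‖ ^ 2 ∧
    ip f (pj S f) = ((nr (pj S f) ^ 2 : ℝ) : ℂ) ∧ nr (pj S f) ≤ nr f

def L1S : Prop := ∀ (B N : ℕ), 2 ≤ B →
  ∑ a ∈ range (B ^ N), ∏ i ∈ range N, (1 / (B : ℝ) + PhB B (tq B N a i)) ≤ (5 + log B) ^ N

def ActS : Prop := ∀ (B N a : ℕ), 100 ≤ B →
  ∏ i ∈ range N, (1 / (B : ℝ) ^ 2 + (1 - 1 / (B : ℝ) ^ 2) * PhB B (tq B N a i) ^ 2) ≤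
    (11 / (B : ℝ)) ^ (act B N a / 2) ∧
  ∏ i ∈ range N, (1 + (B : ℝ) * (1 - PhB B (tq B N a i) ^ 2)) ≤
    (2 * (B : ℝ)) ^ (2 * act B N a) * 14 ^ N

/-! ### exponential sums over primes -/

def VlS : Prop := ∃ C : ℝ, ∀ (X D : ℕ) (α : ℝ) (ρ : ℚ) (m : ℕ → ℕ), 1 ≤ D →
  |α - ρ| ≤ 1 / (ρ.den : ℝ) ^ 2 → (∀ d, m d * d ≤ X) →
  ∑ d ∈ Icc 1 D, ‖∑ n ∈ Icc 1 (m d), e (α * d * n)‖ ≤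
    C * ((X : ℝ) / ρ.den + D + ρ.den) * (1 + log D) * (1 + log ρ.den)

def T2S : Prop := ∃ C : ℝ, ∀ (x M : ℕ) (α : ℝ) (ρ : ℚ) (a b : ℕ → ℝ), 1 ≤ M →
  |α - ρ| ≤ 1 / (ρ.den : ℝ) ^ 2 → (∀ n, |a n| ≤ 1) →
  ‖∑ c ∈ Ioc M (2 * M), ∑ P ∈ Icc 1 (x / c), ((a c * b P : ℝ) : ℂ) * e (α * c * P)‖ ^ 2 ≤
    (∑ P ∈ Icc 1 (x / M), b P ^ 2) *
      (C * (1 + log ρ.den) * ((M : ℝ) * x / ρ.den + x + M ^ 2 + M * ρ.den))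

def VauS : Prop := ∃ C : ℕ, ∀ (X t U : ℕ) (α : ℝ) (ρ : ℚ), t ≤ X → 1 ≤ U → U ^ 5 ≤ X →
  ρ.den ≤ X → |α - ρ| ≤ 1 / (ρ.den : ℝ) ^ 2 →
  ‖∑ n ∈ Icc 1 t, (Λ n : ℂ) * e (α * n)‖ ^ 2 ≤
    C * (1 + log X) ^ C * ((X : ℝ) ^ 2 / ρ.den + (X : ℝ) ^ 2 / U + X * ρ.den)

def VinS : Prop := ∃ C : ℕ, ∀ (L U : ℕ) (α : ℝ) (ρ : ℚ), 2 ≤ L → 1 ≤ U → U ^ 5 ≤ 10 ^ L →
  ρ.den ≤ 10 ^ L → |α - ρ| ≤ 1 / (ρ.den : ℝ) ^ 2 →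
  ‖SH L α‖ ^ 2 ≤ C * (L : ℝ) ^ C *
    (((10 : ℝ) ^ L) ^ 2 / ρ.den + ((10 : ℝ) ^ L) ^ 2 / U + 10 ^ L * ρ.den)

def DirS : Prop := ∃ C : ℕ, ∀ (L Q a : ℕ), 2 ≤ L → 1 ≤ Q → Q ^ 5 ≤ 10 ^ L →
  (¬ Maj (10 ^ L) Q a →
    ‖SH L (-((a : ℝ) / 10 ^ L))‖ ^ 2 ≤ C * (L : ℝ) ^ C * (((10 : ℝ) ^ L) ^ 2 / Q)) ∧
  ∀ ρ : ℚ, ρ.den ≤ Q → |(a : ℝ) - 10 ^ L * ρ| ≤ Q / ρ.den →
    ‖SH L (-((a : ℝ) / 10 ^ L))‖ ^ 2 ≤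
      C * (L : ℝ) ^ C * (((10 : ℝ) ^ L) ^ 2 / (ρ.den * max 1 |(a : ℝ) - 10 ^ L * ρ|))

/-! ### arcs -/

open Classical in
def MajS : Prop := ∀ X Q : ℕ, 1 ≤ Q → Q ≤ X →
  (#{a ∈ range X | Maj X Q a} : ℝ) ≤ 12 * (Q : ℝ) ^ 3

def ThS : Prop := ∀ r D N a : ℕ, Par r D → D ≤ N → Maj (XX r N) (QQ r D N) a →
  0 ≤ th r D N a ∧ th r D N a < 1 ∧ (th r D N a).den.Coprime 10 ∧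
  (th r D N a).den * Nat.gcd (rho (XX r N) (QQ r D N) a).den ((10 ^ r) ^ JJ D N) =
    (rho (XX r N) (QQ r D N) a).den ∧
  #{i ∈ range (N - 2 * JJ D N) |
      1 / ((10 : ℝ) ^ r) ≤ nn (((10 : ℝ) ^ r) ^ i * (th r D N a : ℝ))} ≤ act (10 ^ r) N a ∧
  (20 * act (10 ^ r) N a ≤ N → (∃ k : ℤ, 99 * th r D N a = k) → th r D N a = 0)

def CntS : Prop := ∀ (B n w t A : ℕ) (Θ : Finset ℚ), 2 ≤ B → 1 ≤ w →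
  A < (t + 1) * (n / (2 * w)) →
  (∀ θ ∈ Θ, 0 ≤ θ ∧ θ < 1 ∧ θ.den.Coprime B ∧ θ.den ≤ B ^ w ∧
    #{i ∈ range n | 1 / (B : ℝ) ≤ nn ((B : ℝ) ^ i * (θ : ℝ))} ≤ A) →
  #Θ ≤ n * 9 ^ w * B ^ t

def MinS : Prop := ∀ r D : ℕ, Par r D →
  Tendsto (fun N => Lo (s0 D N) (pj (SM r D N) (Hc r N))) atTop (𝓝 0)

def NloS : Prop := ∀ r D : ℕ, Par r D →
  Tendsto (fun N => Lo (s0 D N) (pj (SN r D N) (Hc r N))) atTop (𝓝 0)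

def HigS : Prop := ∀ r D : ℕ, Par r D →
  Tendsto (fun N : ℕ => (N : ℝ) * Hi (N / 4) (pj (SG r D N) (Hc r N))) atTop (𝓝 0)

/-- the sum over the arcs with a given `th` -/
def ArcS : Prop := ∃ C : ℕ, ∀ r D N : ℕ, Par r D → D ≤ N → ∀ θ : ℚ,
  ∑ a ∈ SL r D N with th r D N a = θ, ‖co (Hc r N) a‖ ^ 2 ≤ C * ((r * N : ℕ) : ℝ) ^ C / θ.den

def LrgS : Prop := ∀ r D : ℕ, Par r D →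
  Tendsto (fun N => nr (pj (SL r D N) (Hc r N))) atTop (𝓝 0)

def SemS : Prop := ∀ r D N : ℕ, Par r D → D ≤ N → ∀ θ : ℚ, ∃ φ : ℕ → ℕ → ℂ, ∀ x,
  ‖pj (SGt r D N θ) (Hc r N) x - sp (JJ D N) (cellf (JJ D N) φ) (gth (JJ D N) θ) x‖ ≤
    300 * ((r * N : ℕ) : ℝ) / QQ r D N

def BlkS : Prop := ∀ (r w m₀ : ℕ) (θ : ℚ), 2 ≤ r → θ.den.Coprime 10 →
  (¬ ∃ k : ℤ, 99 * θ = k) → θ.den ≤ (10 ^ r) ^ w → ∃ m, m₀ ≤ m ∧ m ≤ m₀ + w ∧ ∀ t : ℝ,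
  ‖m1 fun d : Fin (10 ^ r) => e (t * (d : ℕ)) *
    conj (e ((θ : ℝ) * ((10 : ℝ) ^ r) ^ m * (rb r d : ℕ)))‖ ≤ exp (-(1 / 40000))

/-- one pair of frequencies -/
def PrS : Prop := ∀ r D k : ℕ, Par r D → ∀ N : ℕ, D ≤ N → ∀ θ θ' : ℚ, θ' ≠ 0 →
  ‖ip (Aop^[k] (pj (SGt r D N θ) (Hc r N))) (sg (rb r) (Aop^[k] (pj (SGt r D N θ') (Hc r N))))‖ ≤
    10 ^ 6 * ((r * N : ℕ) : ℝ) ^ 2 *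
      (exp (-(1 / 40000)) ^ ((N - 2 * JJ D N) / (w0 N + 1) - 2 * k) + 1 / (QQ r D N : ℝ))

def CrsS : Prop := ∀ r D k : ℕ, Par r D → Tendsto (fun N =>
  ‖ip (Aop^[k] (pj (SG r D N) (Hc r N))) (sg (rb r) (Aop^[k] (pj (SG r D N) (Hc r N)))) -
    ip (Aop^[k] (pj (SGt r D N 0) (Hc r N))) (sg (rb r) (Aop^[k] (pj (SGt r D N 0) (Hc r N))))‖)
  atTop (𝓝 0)

def ZerS : Prop := ∀ r D : ℕ, Par r D → ∀ ε : ℝ, 0 < ε → ∀ᶠ N in atTop,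
  nr (pj (SGt r D N 0) (Hc r N)) ^ 2 ≤ var (r * N) (r * JJ D N) + ε

def MmS : Prop := ∀ r k : ℕ, 1 ≤ r →
  Tendsto (fun N => ip (Aop^[k] (mc r N)) (sg (rb r) (Aop^[k] (mc r N)))) atTop (𝓝 1) ∧
  Tendsto (fun N => ip (Aop^[k] (Hc r N)) (sg (rb r) (Aop^[k] (mc r N)))) atTop (𝓝 0)

/-! ### sieve -/

def SelS : Prop := ∀ (P s : Finset ℕ) (D : Finset (Finset ℕ)) (g : ℕ → ℝ) (E : ℕ → ℕ → Prop)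
  [∀ p n, Decidable (E p n)] (X : ℝ) (R : Finset ℕ → ℝ), 0 ≤ X → ∅ ∈ D → (∀ T ∈ D, T ⊆ P) →
  (∀ T ∈ D, ∀ T' ⊆ T, T' ∈ D) → (∀ p ∈ P, 0 < g p ∧ g p < 1) →
  (∀ T ⊆ P, |(#{n ∈ s | ∀ p ∈ T, E p n} : ℝ) - X * ∏ p ∈ T, g p| ≤ R T) →
  (#{n ∈ s | ∀ p ∈ P, ¬ E p n} : ℝ) ≤
    X / (∑ T ∈ D, ∏ p ∈ T, g p / (1 - g p)) + ∑ T ∈ D, ∑ T' ∈ D, R (T ∪ T')

def GloS : Prop :=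
  (∀ (P : Finset ℕ) (z : ℕ), (∀ p ∈ P, p.Prime) →
    Hm P z ≤ ∑ T ∈ P.powerset with ∏ p ∈ T, p ≤ z, ∏ p ∈ T, 1 / ((p : ℝ) - 1)) ∧
  (∀ (P : Finset ℕ) (z k : ℕ), 1 ≤ z → 1 ≤ k → (∀ p, p.Prime → p ≤ z → ¬ p ∣ k → p ∈ P) →
    (∏ p ∈ k.primeFactors, (1 - 1 / (p : ℝ))) * log z ≤ Hm P z) ∧
  (∀ (P Q : Finset ℕ) (z : ℕ), (∀ p ∈ Q, p.Prime ∧ p ≤ z) →
    Hm P z - ∑ p ∈ Q, 1 / (p : ℝ) * (1 + log (z / p)) ≤ Hm (P \ Q) z)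

def CellS : Prop := ∀ (P : Finset ℕ) (z k u : ℕ) (x l : ℝ), 1 ≤ z → 1 ≤ k → 0 ≤ x → 0 ≤ l →
  (∀ p ∈ P, p.Prime ∧ ¬ p ∣ k) →
  (#((range ⌈x + l⌉₊).filter fun n : ℕ => x ≤ n ∧ n % k = u ∧ ∀ p ∈ P, ¬ p ∣ n) : ℝ) ≤
    l / k / Hm P z + (z : ℝ) ^ 2

def PairS : Prop := ∃ C : ℝ, ∀ X h : ℕ, 3 ≤ X → 1 ≤ h →
  (#{n ∈ range X | n.Prime ∧ (n + h).Prime} : ℝ) ≤ C * X / log X ^ 2 * sing h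

def RomS : Prop := ∀ B : ℕ, 2 ≤ B → ∃ C : ℝ, ∀ (N : ℕ) (a b : ℤ), a ≠ 0 → b ≠ 0 →
  |a| < B → |b| < B → ∑ m ∈ Icc 1 N, sing (a * B ^ m - b).natAbs ≤ C * N

def AfS : Prop := ∀ r : ℕ, 1 ≤ r → ∃ C : ℝ, ∀ᶠ N in atTop, nr (Aop (Hc r N)) ≤ C

def BtS : Prop := ∀ ε : ℝ, 0 < ε → ∃ (A : ℕ) (x₀ : ℝ), ∀ (J u : ℕ) (x l : ℝ), 1 ≤ J → x₀ ≤ x →
  ((10 : ℝ) ^ J) ^ A ≤ x → x ≤ 2 * ((10 : ℝ) ^ J) ^ 3 * l → l ≤ x →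
  ∑ p ∈ (range ⌈x + l⌉₊).filter (fun p : ℕ => p.Prime ∧ x ≤ p ∧ p % 10 ^ J = u), log p ≤
    (2 + ε) * (5 / 2) * (l / 10 ^ J)

def E2S : Prop := ∀ (D₁ : ℕ) (ε : ℝ), 100 ≤ D₁ → 0 < ε → ∃ D₀ : ℕ, ∀ᶠ L : ℕ in atTop, ∀ J : ℕ,
  L ^ 2 ≤ 10 ^ J → D₀ * J ≤ L → ∃ Z : ℕ, L / D₁ ≤ Z ∧
  (∀ j ∈ Ico (Z - L / D₁) Z, 10 ^ (2 * L) ≤ 2 ^ (5 * j) ∧ 2 ^ (2 * j) ≤ 10 ^ L) ∧
  ∀ u v : ℕ, 10 ^ J ≤ 10 * v → v < 10 ^ J →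
    rhoC L J u v + 2 / 5 * 10 ^ J / 10 ^ (L - J) * log ((10 : ℝ) ^ L) * nE L J Z (L / D₁) u v
      ≤ 2 + ε + 100 / (D₁ : ℝ) ^ 2

/-! ### primes modulo 40 and the group -/

def PntaS : Prop := ∀ a : ℕ, a < 40 → a.Coprime 40 → Tendsto (fun x : ℝ =>
  (∑ p ∈ (range ⌈x⌉₊).filter (fun p : ℕ => p.Prime ∧ p % 40 = a), log p) / x) atTop (𝓝 (1 / 16))

def WinS : Prop := ∀ lam ε : ℝ, 1 < lam → 0 < ε → ∃ y₀ : ℝ, ∀ y : ℝ, y₀ ≤ y →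
  (∀ a : ℕ, a < 40 → a.Coprime 40 → |win lam y a - log lam / 16| ≤ ε) ∧
  |∑ p ∈ (range ⌈lam * y⌉₊).filter (fun p : ℕ => p.Prime ∧ y ≤ p), log p / p - log lam| ≤ ε

/-- real characters only see the class modulo 40 -/
def RealS : Prop := ∀ (J : ℕ) (χ : AddChar (UU' J) ℂ), 3 ≤ J → (∀ u, χ u ^ 2 = 1) →
  ∃ c : ℕ → ℂ, (∀ a, ‖c a‖ ≤ 1) ∧ (∀ n : ℕ, n.Coprime 10 → χ (cl J n) = c (n % 40)) ∧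
    16 * ∑ u, χ u =
      Fintype.card (UU' J) * ∑ a ∈ (range 40).filter (fun a => a.Coprime 40), c a

def TriS : Prop := ∀ (G : Type) [AddCommGroup G] [Fintype G] (f ψ h : G → ℝ) (s a b : ℝ),
  0 ≤ s → 0 ≤ a → 0 ≤ b → (∀ x, |f x - 1| ≤ a) → (∀ x, |h x - 1| ≤ b) →
  (∀ ξ : AddChar G ℂ, ξ ≠ 1 → ‖∑ x, (ψ x : ℂ) * ξ x‖ ≤ s * Fintype.card G) →
  |∑ x, ∑ y, f (x + y) * ψ x * h y - (∑ x, f x) * (∑ x, ψ x) * (∑ x, h x) / Fintype.card G| ≤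
    s * a * b * (Fintype.card G : ℝ) ^ 2

def SgS : Prop := ∀ (V : Type) [AddCommGroup V] [Fintype V] (M M₁ : ℕ) [NeZero M]
  (ψ : V × ZMod M → ℝ) (ε : ℝ), M = 2000 * M₁ → 1000 ≤ M₁ → 0 ≤ ε → ε ≤ 1 / 100 →
  (∀ g, |ψ g| ≤ (1 + ε) * iot M₁ g) →
  (∀ χ : AddChar V ℂ, (∀ u, χ u ^ 2 = 1) →
    ‖∑ g, (ψ g : ℂ) * χ g.1‖ ≤ ε * Fintype.card (V × ZMod M)) →
  ∀ ξ : AddChar (V × ZMod M) ℂ,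
    ‖∑ g, (((ψ g + ψ (g - (0, 1))) / 2 : ℝ) : ℂ) * ξ g‖ ≤
      0.978 * (1 + ε) * Fintype.card (V × ZMod M)

def Tri2S : Prop := ∀ (V : Type) [AddCommGroup V] [Fintype V] (M M₁ : ℕ) [NeZero M]
  (ρ ρ₁ ρ₂ : V × ZMod M → ℝ), M = 2000 * M₁ → 1000 ≤ M₁ →
  (∀ g, 0 ≤ ρ g ∧ ρ g ≤ 2 + 1 / 2000) → (∀ g, 0 ≤ ρ₂ g ∧ ρ₂ g ≤ 2 + 1 / 2000) →
  (∀ g, 0 ≤ ρ₁ g ∧ ρ₁ g ≤ (2 + 1 / 2000) * iot M₁ g) →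
  (1 - 1 / 1000) * (Fintype.card (V × ZMod M) : ℝ) ≤ ∑ g, ρ g →
  (∀ g, ρ g ≠ 0 → ∀ j : ℕ, j ≤ 1 → (1 - 1 / 2000) * (Fintype.card (V × ZMod M) : ℝ) ≤
    ∑ x, iot M₁ x * ρ₂ (g - x - (0, (j : ZMod M)))) →
  (∀ χ : AddChar V ℂ, (∀ u, χ u ^ 2 = 1) →
    ‖∑ g, ((ρ₁ g - iot M₁ g : ℝ) : ℂ) * χ g.1‖ ≤ 1 / 2000 * Fintype.card (V × ZMod M)) →
  2 / 100 * (Fintype.card (V × ZMod M) : ℝ) ^ 2 ≤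
    ∑ j ∈ range 2, ∑ x, ∑ y, ρ (x + y + (0, (j : ZMod M))) * ρ₁ x * ρ₂ y

def TrAS : Prop := ∀ L J j : ℕ, 2 ≤ J → Adm 100 L J j →
  ∑ i ∈ range 2, ∑ x, ∑ y, rt L J (x + y + (0, (i : ZMod (10 ^ (2 * J))))) * W1 J j x * W2 L J j y
    ≤ 2 * bil L J j

def TrBS : Prop := ∀ᶠ L : ℕ in atTop, ∀ J : ℕ, L ^ 2 ≤ 10 ^ J → 100 * J ≤ L →
  (1 - 1 / 1000) * (Fintype.card (GG' J) : ℝ) ≤ ∑ g, rt L J g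

def TrCS : Prop := ∃ D₀ : ℕ, ∀ᶠ L : ℕ in atTop, ∀ J j : ℕ, Adm D₀ L J j →
  (∀ g, 0 ≤ rt L J g ∧ rt L J g ≤ 2 + 1 / 2000) ∧
  (∀ g, 0 ≤ r2 L J j g ∧ r2 L J j g ≤ 2 + 1 / 2000) ∧
  (∀ g, 0 ≤ r1 J j g ∧ r1 J j g ≤ (2 + 1 / 2000) * iot (10 ^ (2 * J) / 2000) g)

def TrDS : Prop := ∀ᶠ L : ℕ in atTop, ∀ J j : ℕ, Adm 100 L J j →
  ∀ g, rt L J g ≠ 0 → ∀ i : ℕ, i ≤ 1 → (1 - 1 / 2000) * (Fintype.card (GG' J) : ℝ) ≤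
    ∑ x, iot (10 ^ (2 * J) / 2000) x * r2 L J j (g - x - (0, (i : ZMod (10 ^ (2 * J)))))

def TrES : Prop := ∀ᶠ L : ℕ in atTop, ∀ J j : ℕ, Adm 100 L J j →
  ∀ χ : AddChar (UU' J) ℂ, (∀ u, χ u ^ 2 = 1) →
    ‖∑ g, ((r1 J j g - iot (10 ^ (2 * J) / 2000) g : ℝ) : ℂ) * χ g.1‖ ≤
      1 / 2000 * Fintype.card (GG' J)

def TrilS : Prop := ∃ D₀ : ℕ, ∀ᶠ L : ℕ in atTop, ∀ J j : ℕ, Adm D₀ L J j →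
  log 2 ^ 2 / 200000 ≤ bil L J j

def VarS : Prop := ∃ (η : ℝ) (D₀ : ℕ), 0 < η ∧ ∀ᶠ L : ℕ in atTop, ∀ J : ℕ,
  L ^ 2 ≤ 10 ^ J → D₀ * J ≤ L → var L J ≤ 1 - η

/-! ### the end -/

def PosS : Prop := ∃ (r k : ℕ) (η : ℝ), 1 ≤ r ∧ 0 < η ∧ ∀ᶠ N in atTop,
  η ≤ (ip (Aop^[k] (Fc r N)) (sg (rb r) (Aop^[k] (Fc r N)))).re

open Classical in
def MainS : Prop := ∃ (r K : ℕ) (c : ℝ), 1 ≤ r ∧ 0 < c ∧ ∀ᶠ N : ℕ in atTop,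
  c * 10 ^ (r * N) / ((r * N : ℕ) : ℝ) ^ 2 ≤
    (#{p ∈ Ico (10 ^ (r * N - 1)) (10 ^ (r * N)) | Good (r * N) K p} : ℝ)

end Pool.Agent.Emirp.Lin
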